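import Pool.Agent.Helper78.AO.Goals

/-!
# Machines with memory: languages
-/

namespace Pool.Agent.Helper78.AO

open Pool.Agent.Helper81.CC Pool.Agent.Helper51.ZP Pool.Agent.Helper31.TMSim
open Pool.Agent.Helper83.CL Computability

/-- the action of the trivial machine -/
def act0 (f : List Bool → Bool) (z : View) : ℕ := if f z.1 = true then 2 else 1

theorem PT_act0 {f : List Bool → Bool} (hf : PolyTime f) : PolyTime (act0 f) := by
  unfold act0
  have h1 : PolyTime (fun z : View => f z.1) := PolyTime.comp hf (by fun_prop)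
  fun_prop

/-- the trivial machine -/
noncomputable def M0 (f : List Bool → Bool) (hf : PolyTime f) : Machine where
  m _ := 0
  T _ := 1
  act := act0 f
  m_poly := (PolyTime.const (α := List Bool) (0 : ℕ)).computable
  T_poly := (PolyTime.const (α := List Bool) (1 : ℕ)).computable
  act_poly := (PT_act0 hf).computable

theorem M0_run (f : List Bool → Bool) (hf : PolyTime f) (c : ℕ) (x : List Bool) (b : ℕ → Bool) :
    run (M0 f hf) c x b 1 0 [] = f x := by
  have hact : ∀ i M a, (M0 f hf).act (x, i, M, a) = if f x = true then 2 else 1 := fun i M a => rfl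
  unfold run
  simp only [hact]
  cases f x <;> simp

theorem M0_acc_pos (f : List Bool → Bool) (hf : PolyTime f) (c : ℕ) (x : List Bool)
    (h : f x = true) : acc (M0 f hf) c x = 1 := by
  unfold acc
  have e : Nat.card {r : Fin ((M0 f hf).m x) → Bool //
      run (M0 f hf) c x (coins r) ((M0 f hf).T x) 0 [] = true} =
      Nat.card (Fin ((M0 f hf).m x) → Bool) :=
    Nat.card_congr (Equiv.subtypeUnivEquiv fun r => (M0_run f hf c x (coins r)).trans h)
  rw [e, Nat.card_eq_fintype_card, Fintype.card_fun, Fintype.card_bool, Fintype.card_fin]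
  rfl

theorem M0_acc_neg (f : List Bool → Bool) (hf : PolyTime f) (c : ℕ) (x : List Bool)
    (h : f x = false) : acc (M0 f hf) c x = 0 := by
  unfold acc
  have : IsEmpty {r : Fin ((M0 f hf).m x) → Bool //
      run (M0 f hf) c x (coins r) ((M0 f hf).T x) 0 [] = true} :=
    ⟨fun r => by
      have h1 : f x = true := (M0_run f hf c x (coins r.1)).symm.trans r.2
      rw [h] at h1
      exact Bool.false_ne_true h1⟩
  exact Nat.card_of_isEmpty

theorem mga (hM : MapStmt) : MgaStmt := by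
  intro c e L
  constructor
  · intro hL
    obtain ⟨f, hf, h⟩ := PT_of_inP hL
    refine ⟨M0 f hf, fun _ => 0, (PolyTime.const (α := List Bool) (0 : ℕ)).computable, ?_, ?_⟩
    · intro x hx
      rw [M0_acc_pos f hf c x ((h x).1 hx)]
      show (0 + 1) * 2 ^ 0 ≤ _
      have h1 : 1 ≤ (Nat.log 2 x.length + 2) ^ e := Nat.one_le_pow _ _ (by omega)
      simpa using h1
    · intro x hx
      have hfx : f x = false := by
        rw [← Bool.not_eq_true, ← h x]
        exact hx
      rw [M0_acc_neg f hf c x hfx]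
      simp
  · rintro ⟨A, g, hg, h1, h2⟩
    obtain ⟨f, hf, hfa⟩ := hM c A (e + 2)
    have hlen : PolyTime (fun x : List Bool => x.length) := by fun_prop
    have hgP : PolyTime g := Pool.Agent.Helper61.DT.PT_of_comp' hg
    have hfP : PolyTime f := Pool.Agent.Helper61.DT.PT_of_comp' hf
    have hlog : PolyTime (fun x : List Bool => Nat.log 2 x.length) :=
      Pool.Agent.Helper61.DT.PT_log hlen
    have hdec : PolyTime fun x : List Bool =>
        decide ((2 * g x + 1) * (Nat.log 2 x.length + 2) ^ 2 ≤ 2 * f x) := by fun_prop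
    refine inP_of_PT hdec fun x => ?_
    rw [decide_eq_true_iff]
    have hx := hfa x
    obtain ⟨l, hl⟩ : ∃ l : ℕ, l = Nat.log 2 x.length + 2 := ⟨_, rfl⟩
    have hl2 : (2 : ℝ) ≤ l := by
      have : 2 ≤ l := by omega
      exact_mod_cast this
    rw [← hl] at hx ⊢
    have hlc : (0 : ℝ) < (l : ℝ) ^ e := by positivity
    have hm : (0 : ℝ) < (2 : ℝ) ^ A.m x := by positivity
    rw [abs_le] at hx
    obtain ⟨hx1, hx2⟩ := hx
    have e1 : (f x : ℝ) / (l : ℝ) ^ (e + 2) * (l : ℝ) ^ (e + 2) = f x := by field_simp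
    have e2 : (1 : ℝ) / (l : ℝ) ^ (e + 2) * (l : ℝ) ^ (e + 2) = 1 := by field_simp
    have hlc2 : (0 : ℝ) < (l : ℝ) ^ (e + 2) := by positivity
    have hx1' := mul_le_mul_of_nonneg_right hx1 hlc2.le
    have hx2' := mul_le_mul_of_nonneg_right hx2 hlc2.le
    rw [neg_mul, e2, sub_mul, e1] at hx1'
    rw [e2, sub_mul, e1] at hx2'
    have e3 : (acc A c x : ℝ) / 2 ^ A.m x * (l : ℝ) ^ (e + 2) =
        ((l : ℝ) ^ e * acc A c x / 2 ^ A.m x) * l ^ 2 := by
      rw [pow_add]; ring
    rw [e3] at hx1' hx2'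
    have hl4 : (4 : ℝ) ≤ (l : ℝ) ^ 2 := by nlinarith
    constructor
    · intro hxL
      have h3 := h1 x hxL
      rw [← hl] at h3
      have h3' : ((g x : ℝ) + 1) * 2 ^ A.m x ≤ (l : ℝ) ^ e * acc A c x := by exact_mod_cast h3
      have h4 : (g x : ℝ) + 1 ≤ (l : ℝ) ^ e * acc A c x / 2 ^ A.m x := (le_div_iff₀ hm).2 h3'
      have h5 : ((g x : ℝ) + 1) * l ^ 2 ≤ ((l : ℝ) ^ e * acc A c x / 2 ^ A.m x) * l ^ 2 :=
        mul_le_mul_of_nonneg_right h4 (by positivity)
      have h6 : (2 * (g x : ℝ) + 1) * l ^ 2 ≤ 2 * f x := by nlinarith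
      exact_mod_cast h6
    · intro hd
      by_contra hxL
      have h3 := h2 x hxL
      rw [← hl] at h3
      have h3' : (l : ℝ) ^ e * acc A c x ≤ (g x : ℝ) * 2 ^ A.m x := by exact_mod_cast h3
      have h4 : (l : ℝ) ^ e * acc A c x / 2 ^ A.m x ≤ (g x : ℝ) := (div_le_iff₀ hm).2 h3'
      have h5 : ((l : ℝ) ^ e * acc A c x / 2 ^ A.m x) * l ^ 2 ≤ (g x : ℝ) * l ^ 2 :=
        mul_le_mul_of_nonneg_right h4 (by positivity)
      have h6 : (2 * (g x : ℝ) + 1) * l ^ 2 ≤ 2 * f x := by exact_mod_cast hd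
      nlinarith

end Pool.Agent.Helper78.AO
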