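import Pool.Agent.Helper78.AO.Goals
import Pool.Agent.Helper94.AO.TOG
import Pool.Agent.Helper50.AO.APG
import Pool.Agent.Helper59.AO.PTG
import Pool.Agent.Helper89.AO.BRG
import Pool.Agent.Helper61.AO.GEN
import Pool.Agent.Helper83.AO.RKLSW
import Pool.Agent.Helper48.AO.LSE
import Pool.Agent.Helper81.AO.CVT
import Pool.Agent.Helper15.AO.MLS
import Pool.Agent.Helper16.AO.PTM
import Pool.Agent.Helper9.AO.MAP
import Pool.Agent.Helper78.AO.MGA

/-!
# Machines with memory: the assembly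
-/

namespace Pool.Agent.Helper78.AO

open Pool.Agent.Helper51.ZP

theorem genS : GenStmt :=
  Pool.Agent.Helper61.AO.gen (Pool.Agent.Helper50.AO.apg Pool.Agent.Helper94.AO.tog)
    Pool.Agent.Helper59.AO.ptg Pool.Agent.Helper89.AO.brg

theorem mlsS : MlsStmt :=
  Pool.Agent.Helper15.AO.mls Pool.Agent.Helper48.AO.lse Pool.Agent.Helper83.AO.lsw
    Pool.Agent.Helper81.AO.cvt

theorem mapS : MapStmt :=
  Pool.Agent.Helper9.AO.map genS Pool.Agent.Helper83.AO.rk0 mlsS Pool.Agent.Helper16.AO.ptm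

theorem main (c : ℕ) : Approximable c ∧ ∀ (e : ℕ) (L : Set (List Bool)),
    InP L ↔ DecidedWithGap c e L :=
  ⟨mapS c, fun e L => mga mapS c e L⟩

end Pool.Agent.Helper78.AO
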