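import Mathlib.Data.Nat.Log
import Mathlib.Data.Real.Basic
import Pool.Agent.Helper51.ZP.Defs

/-!
# Randomized machines which keep only few coins in their memory

Turing machines are Mathlib's multi-stack machines; `PolyTimeComputable` is in
`Pool.Agent.Helper81.CxDefs`, the coding `encOf` of structured data (with numbers in unary) is in
`Pool.Agent.Helper81.CxData`, and `InP` is in `Pool.Agent.Helper51.ZP.Defs`.
-/

namespace Pool.Agent.Helper78.AO

open Pool.Agent.Helper81.CC

/-- The memory: the list of the stages which have changed the memory, with the bits read in them. -/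
abbrev Mem := List (ℕ × List Bool)

/-- What a stage knows: the input, the number of the stage, the memory, and the list of the bits
which it has read so far. -/
abbrev View := List Bool × ℕ × Mem × List Bool

/-- A randomized machine. The coins are tossed in advance, and each stage may read any of them, one
after the other, adaptively. `act z` says what a stage does next:
`0`: it ends and forgets everything that it has read; `1`: the run ends and rejects; `2`: the run
ends and accepts; `3`: it ends and stores all the bits that it has read; `j + 4`: it reads the coin
`j`. Numbers are coded in unary, so `m` and `T` are at most polynomial. -/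
structure Machine where
  /-- the number of the coins -/
  m : List Bool → ℕ
  /-- the number of the stages -/
  T : List Bool → ℕ
  /-- the next action of a stage -/
  act : View → ℕ
  m_poly : PolyTimeComputable (encOf (List Bool)) (encOf ℕ) m
  T_poly : PolyTimeComputable (encOf (List Bool)) (encOf ℕ) T
  act_poly : PolyTimeComputable (encOf View) (encOf ℕ) act

/-- The bound `c log₂ |x| + c`. -/
def bd (c : ℕ) (x : List Bool) : ℕ := c * Nat.log 2 x.length + c

/-- The number of the bits in the memory. -/
def msize (M : Mem) : ℕ := (M.map fun e => e.2.length).sum

/-- The bits read by the stage `i` with the memory `M` in its first `k` reading steps (or until it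
ends); `b j` is the value of the coin `j`. -/
def bits (A : Machine) (x : List Bool) (b : ℕ → Bool) (i : ℕ) (M : Mem) : ℕ → List Bool
  | 0 => []
  | k + 1 =>
    if 4 ≤ A.act (x, i, M, bits A x b i M k) then
      bits A x b i M k ++ [b (A.act (x, i, M, bits A x b i M k) - 4)]
    else bits A x b i M k

/-- The run of the last `n` stages, from the stage `i` and the memory `M`. A stage reads at most
`bd c x` coins, and the memory has room for `bd c x` bits in all: a stage which wants to read or to
store more is forgotten. -/
def run (A : Machine) (c : ℕ) (x : List Bool) (b : ℕ → Bool) : ℕ → ℕ → Mem → Bool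
  | 0, _, _ => false
  | n + 1, i, M =>
    if A.act (x, i, M, bits A x b i M (bd c x)) = 1 then false
    else if A.act (x, i, M, bits A x b i M (bd c x)) = 2 then true
    else if A.act (x, i, M, bits A x b i M (bd c x)) = 3 ∧
        msize M + (bits A x b i M (bd c x)).length ≤ bd c x then
      run A c x b n (i + 1) (M ++ [(i, bits A x b i M (bd c x))])
    else run A c x b n (i + 1) M

/-- The coins as a function on all numbers (`false` if there is no such coin). -/
def coins {m : ℕ} (r : Fin m → Bool) (j : ℕ) : Bool := if h : j < m then r ⟨j, h⟩ else false

/-- The number of the coin strings with which the machine accepts. -/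
noncomputable def acc (A : Machine) (c : ℕ) (x : List Bool) : ℕ :=
  Nat.card {r : Fin (A.m x) → Bool // run A c x (coins r) (A.T x) 0 [] = true}

/-- The probability that such a machine accepts can be approximated in polynomial time up to
`1 / (log₂ |x| + 2) ^ e`, for every `e`. -/
def Approximable (c : ℕ) : Prop := ∀ (A : Machine) (e : ℕ), ∃ f : List Bool → ℕ,
  PolyTimeComputable (encOf (List Bool)) (encOf ℕ) f ∧ ∀ x,
    |(f x : ℝ) / (Nat.log 2 x.length + 2 : ℕ) ^ e - (acc A c x : ℝ) / 2 ^ A.m x| ≤
      1 / (Nat.log 2 x.length + 2 : ℕ) ^ e

/-- `L` is decided with gap `1 / (log₂ |x| + 2) ^ e` by such a machine: for some number `g x`,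
computable in polynomial time, the probability that the machine accepts is at least
`(g x + 1) / (log₂ |x| + 2) ^ e` if `x ∈ L`, and at most `g x / (log₂ |x| + 2) ^ e` if `x ∉ L`. -/
def DecidedWithGap (c e : ℕ) (L : Set (List Bool)) : Prop :=
  ∃ (A : Machine) (g : List Bool → ℕ),
    PolyTimeComputable (encOf (List Bool)) (encOf ℕ) g ∧
    (∀ x ∈ L, (g x + 1) * 2 ^ A.m x ≤ (Nat.log 2 x.length + 2) ^ e * acc A c x) ∧
    (∀ x, x ∉ L → (Nat.log 2 x.length + 2) ^ e * acc A c x ≤ g x * 2 ^ A.m x)

end Pool.Agent.Helper78.AO
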