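import Pool.Agent.Helper78.AO.Defs
import Pool.Agent.Helper78.DT.Final

/-!
# Derandomization of lists of small width and any size: the statements, with proofs in words

All the goals of the project DT are proved (`DT/Final.lean` and its imports) and may be used.
`DL`, `Sat`, `ev`, `Wid`, `pr` are in `DT/Core.lean`, `cf`, `cut`, `dg`, `lg`, the parameters in
`DT/Num.lean`, `bal`, `ToaStmt`, `TobStmt` in `DT/Goals3.lean`.
-/

namespace Pool.Agent.Helper78.AO

open Pool.Agent.Helper81.CC Pool.Agent.Helper51.ZP Pool.Agent.Helper78.DT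
open scoped Classical

/-! ### The general theorem -/

/-- The value of the sample number `i`: `R K t h b` is the value of the list with balanced terms
only, for the coins `b`. -/
def sdg (R : ℕ → ℕ → (ℕ → ℕ) → (ℕ → Bool) → Bool) (m c a β L i : ℕ) : Bool :=
  R (KK c a β L) (tt a L) (pt (PP c L) (KK c a β L) (tt a L) L (dg (PP c L) i))
    (cut m (cn (RR c L) (PP c L) (KK c a β L) (tt a L) L (dd a L) (dg (PP c L) i)
      (dg (RR c L) (i / PP c L ^ (tt a L + 2)))
      (dg (qn c L * PP c L) (i / PP c L ^ (tt a L + 2) / RR c L ^ dd a L))))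

/-- The number of the samples. -/
def zng (c a β C N : ℕ) : ℕ := Zc ((4 * N + 4) ^ C) c a β (lg N)

/-- The number of the accepted samples. -/
def ang (R : ℕ → ℕ → (ℕ → ℕ) → (ℕ → Bool) → Bool) (m c a β C N : ℕ) : ℕ :=
  ((List.range (zng c a β C N)).filter fun i => sdg R m c a β (lg N) i).length

/-- The approximation in units of `1 / lg N ^ e`. -/
def apg (R : ℕ → ℕ → (ℕ → ℕ) → (ℕ → Bool) → Bool) (m c a β C e N : ℕ) : ℕ :=
  (2 * lg N ^ e * ang R m c a β C N + zng c a β C N) / (2 * zng c a β C N)

/-- `R` computes the values of the balanced parts of a decision list of width `w`. -/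
def Lists (n w : ℕ) (R : ℕ → ℕ → (ℕ → ℕ) → (ℕ → Bool) → Bool) : Prop :=
  ∃ f : DL (Fin n), Wid w f ∧ ∀ (b : Fin n → Bool) (h : ℕ → ℕ) (K t : ℕ),
    ev (f.filter (bal K t h)) b = R K t h (cf b)

/-- **TOG.** The total error for a list of any size. (Use `ToaStmt` = `Pool.Agent.Helper79.DT.toa`
with `goo`, `foo` of `DT/Final.lean` and `Pool.Agent.Helper32.DT.hyb`, and `tobS`.)

Proof. As in `Pool.Agent.Helper42.DT.TOT`, without the machine: for each `A'` put
`h = pt P K t e (ext A')` (values `< K`) and `f' = f.filter (bal K t h)`; TOA for `f'`; the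
assignment of TOA is the restriction to `Fin n` of `cut n (cn ...)`, so its value is
`R K t h (cut n ...)` (as `cf` of the restriction is `cut n ...`). Average over `A'` (`av_prod`),
then TOB. -/
def TogStmt : Prop := ∀ (n W K t e P Q d q k s : ℕ) (η κ δ : ℝ)
  (R : ℕ → ℕ → (ℕ → ℕ) → (ℕ → Bool) → Bool) (f : DL (Fin n)), Wid W f →
  (∀ (b : Fin n → Bool) (h : ℕ → ℕ) (K t : ℕ), ev (f.filter (bal K t h)) b = R K t h (cf b)) →
  P.Prime → Q.Prime → 0 < K → K ≤ P → 0 < q → q * P ≤ Q → n ≤ 2 ^ e →
  2 * k * (t * s) ≤ d → 0 < δ → 16 * (k : ℝ) ^ 2 ≤ q * δ ^ 2 → 2 * ((t * s : ℕ) : ℝ) ≤ δ * Q →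
  0 < η → η ≤ 1 → 0 < κ → (2 / η) ^ t ≤ s * (κ / 2 ^ t) ^ η →
  |pr (fun z : (Fin (t + 2) → Fin P) × (Fin d → Fin Q) × (Fin K → Fin (q * P)) =>
      R K t (pt P K t e (ext z.1))
        (cut n (cn Q P K t e d (ext z.1) (ext z.2.1) (ext z.2.2))) = true) -
    pr (fun b : Fin n → Bool => ev f b = true)| ≤
  ((W : ℝ) ^ 2 * e / P + (W.choose (t + 1)) * 2 ^ (t + 1) / (K : ℝ) ^ t) +
    2 * (2 * (2 * (P : ℝ) + 1) ^ t + 1) ^ s * (1 / 4) ^ k + K * er P t s e η κ δ

/-- **APG.** The approximation theorem for lists of any size. (May assume `TogStmt`; use `para`,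
`parb`, `dig`, see `DT/Final.lean` and `Pool.Agent.Helper39.DT.Apx`.)

Proof. As in `Pool.Agent.Helper39.DT.Apx`. Let `c' = e + c1`, take `a`, `β`, `L0` from PARA for `c'`
and `C`, `L0'` from PARB. For `L = lg N ≥ max`: `n ≤ N < 2 ^ L`, the width is
`≤ c1 * L ≤ WW c' L = (c' + 9) * L`, `zng = ZZ` since `2 ^ (C L) ≤ (4 N + 4) ^ C`; by DIG the
fraction `ang / zng` is the probability in TOG (`sdg` depends only on the first digits). The error
is `< 1/(2 L^c') ≤ 1/(2 L^e)` (the first summand of PARA is nonnegative), and the rounding in `apg`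
costs at most `1/2` unit. `ev f b = R 0 0 h (cf b)`, because `bal 0 0 h` is always true. -/
def ApgStmt : Prop := ∀ c1 e : ℕ, ∃ a β C L0 : ℕ, ∀ (n N : ℕ)
  (R : ℕ → ℕ → (ℕ → ℕ) → (ℕ → Bool) → Bool), n ≤ N → Lists n (c1 * lg N) R → L0 ≤ lg N →
    |(apg R n (e + c1) a β C e N : ℝ) / (lg N : ℝ) ^ e -
        pr (fun b : Fin n → Bool => R 0 0 (fun _ => 0) (cf b) = true)| ≤ 1 / (lg N : ℝ) ^ e

/-- `R` is computable in polynomial time, as a functional. -/
def PolyR {α : Type} [ToData α] (R : α → ℕ → ℕ → (ℕ → ℕ) → (ℕ → Bool) → Bool) : Prop :=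
  ∀ (γ : Type) [ToData γ] (x : γ → α) (K t : γ → ℕ) (h : γ → ℕ → ℕ) (b : γ → ℕ → Bool),
    PolyTime x → PolyTime K → PolyTime t → PolyTime (fun z : γ × ℕ => h z.1 z.2) →
    PolyTime (fun z : γ × ℕ => b z.1 z.2) → PolyTime fun a => R (x a) (K a) (t a) (h a) (b a)

/-- **PTG.** The algorithm runs in polynomial time.

Proof. As in `Pool.Agent.Helper16.DT.PTD`, with `R` instead of `res`. -/
def PtgStmt : Prop := ∀ (α : Type) [ToData α] (R : α → ℕ → ℕ → (ℕ → ℕ) → (ℕ → Bool) → Bool)
  (m s : α → ℕ) (c a β C e : ℕ), PolyR R → PolyTime m → PolyTime s →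
  PolyTime fun x => apg (R x) (m x) c a β C e (s x)

/-- **BRG.** Brute force, for a bounded number of coins.

Proof. As in `Pool.Agent.Helper40.DT.BRU`. -/
def BrgStmt : Prop := ∀ (α : Type) [ToData α] (R : α → ℕ → ℕ → (ℕ → ℕ) → (ℕ → Bool) → Bool)
  (m s : α → ℕ) (e M : ℕ), PolyR R → PolyTime m → PolyTime s →
  ∃ f : α → ℕ, PolyTime f ∧ ∀ x, m x ≤ M →
    |(f x : ℝ) / (lg (s x) : ℝ) ^ e -
        pr (fun b : Fin (m x) → Bool => R x 0 0 (fun _ => 0) (cf b) = true)| ≤
      1 / (lg (s x) : ℝ) ^ e

/-- **GEN.** The general theorem. (May assume `ApgStmt`, `PtgStmt`, `BrgStmt`.)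

Proof. As in `Pool.Agent.Helper89.DT.All`: `apg` if `L0 ≤ lg (s x)`, and brute force with
`M = 2 ^ L0` otherwise, as `m x ≤ s x < 2 ^ lg (s x)`. -/
def GenStmt : Prop := ∀ (α : Type) [ToData α] (R : α → ℕ → ℕ → (ℕ → ℕ) → (ℕ → Bool) → Bool)
  (m s : α → ℕ) (c1 : ℕ), PolyR R → PolyTime m → PolyTime s → (∀ x, m x ≤ s x) →
  (∀ x, Lists (m x) (c1 * lg (s x)) (R x)) → ∀ e : ℕ, ∃ f : α → ℕ, PolyTime f ∧ ∀ x,
    |(f x : ℝ) / (lg (s x) : ℝ) ^ e -
        pr (fun b : Fin (m x) → Bool => R x 0 0 (fun _ => 0) (cf b) = true)| ≤
      1 / (lg (s x) : ℝ) ^ e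

/-! ### Machines with memory -/

section
variable (A : Machine) (x : List Bool)

/-- The literals of one stage: the coins read and their values. -/
def lit (i : ℕ) (M : Mem) (a : List Bool) : List (ℕ × Bool) :=
  (List.range a.length).map fun k => (A.act (x, i, M, a.take k) - 4, a.getD k false)

/-- The literals of the stages in the memory. -/
def litm (M : Mem) : List (ℕ × Bool) :=
  (List.range M.length).flatMap fun j =>
    lit A x (M.getD j (0, [])).1 (M.take j) (M.getD j (0, [])).2

/-- The names of the coins in a list of literals, without repetitions. -/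
def nms (l : List (ℕ × Bool)) : List ℕ :=
  ((l.map fun p => p.1).filter fun v => decide (v < A.m x)).dedup

/-- A list of literals has at most `t` names in each of the `K` parts of the partition `h`. -/
def okl (K t : ℕ) (h : ℕ → ℕ) (l : List (ℕ × Bool)) : Bool :=
  (List.range K).all fun j => decide (((nms A x l).filter fun v => decide (h v = j)).length ≤ t)

/-- The run in which a stage is forgotten if its coins, together with those of the memory, are not
balanced. -/
def runK (c K t : ℕ) (h : ℕ → ℕ) (b : ℕ → Bool) : ℕ → ℕ → Mem → Bool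
  | 0, _, _ => false
  | n + 1, i, M =>
    if okl A x K t h (litm A x M ++ lit A x i M (bits A x b i M (bd c x))) = false then
      runK c K t h b n (i + 1) M
    else if A.act (x, i, M, bits A x b i M (bd c x)) = 1 then false
    else if A.act (x, i, M, bits A x b i M (bd c x)) = 2 then true
    else if A.act (x, i, M, bits A x b i M (bd c x)) = 3 ∧
        msize M + (bits A x b i M (bd c x)).length ≤ bd c x then
      runK c K t h b n (i + 1) (M ++ [(i, bits A x b i M (bd c x))])
    else runK c K t h b n (i + 1) M

/-- **RK0.** Without parts there is no restriction. (`okl` is `true` for `K = 0`; induction.) -/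
def Rk0Stmt : Prop := ∀ (A : Machine) (x : List Bool) (c t : ℕ) (h : ℕ → ℕ) (b : ℕ → Bool)
  (n i : ℕ) (M : Mem), runK A x c 0 t h b n i M = run A c x b n i M

/-- All lists of at most `D` bits. -/
def strs : ℕ → List (List Bool)
  | 0 => [[]]
  | D + 1 => [] :: (strs D).flatMap fun a => [false :: a, true :: a]

/-- `a` is a possible list of the bits read by the stage `i` with the memory `M`. -/
def pth (c i : ℕ) (M : Mem) (a : List Bool) : Bool :=
  ((List.range a.length).all fun k => decide (4 ≤ A.act (x, i, M, a.take k))) &&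
    (decide (A.act (x, i, M, a) < 4) || decide (a.length = bd c x))

/-- The list of all possible histories in lexicographic order, each with its literals and its
result, for the last `n` stages, from the stage `i` and the memory `M`. -/
def lst (c : ℕ) : ℕ → ℕ → Mem → List (List (ℕ × Bool) × Bool)
  | 0, _, M => [(litm A x M, false)]
  | n + 1, i, M =>
    ((strs (bd c x)).flatMap fun a =>
      if pth A x c i M a = false then []
      else if A.act (x, i, M, a) = 1 then [(litm A x M ++ lit A x i M a, false)]
      else if A.act (x, i, M, a) = 2 then [(litm A x M ++ lit A x i M a, true)]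
      else if A.act (x, i, M, a) = 3 ∧ msize M + a.length ≤ bd c x then
        lst c n (i + 1) (M ++ [(i, a)])
      else []) ++ lst c n (i + 1) M

/-- All literals of the list are true for the coins `b`. -/
def Tru (b : ℕ → Bool) (l : List (ℕ × Bool)) : Prop := ∀ p ∈ l, b p.1 = p.2

/-- The result of a list of literals with labels for the coins `b`, where only the balanced entries
count. -/
noncomputable def evl (K t : ℕ) (h : ℕ → ℕ) (b : ℕ → Bool) :
    List (List (ℕ × Bool) × Bool) → Option Bool
  | [] => none
  | e :: l => if Tru b e.1 ∧ okl A x K t h e.1 = true then some e.2 else evl K t h b l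

end

/-- **LSE.** The list of the histories computes the run.

Proof. Write `Tru b (litm A x M)` for: `b` agrees with `M`. (0) `evl (l ++ l')` is `evl l` if this is
not `none`, and `evl l'` otherwise. `okl` is monotone: if `l ⊆ l'` and `okl l' = true` then
`okl l = true` (`nms l ⊆ nms l'`, no repetitions). `litm (M ++ [(i, a)]) = litm M ++ lit i M a`. All
entries of `lst n i M` contain the literals `litm M` (induction on `n`). (1) So if `b` does not agree
with `M` or `okl (litm M)` is false, then `evl (lst n i M) = none`. (2) Claim: if `b` agrees with `M`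
and `okl (litm M) = true`, then `evl (lst n i M) = some (runK n i M)`. Induction on `n`; `n = 0` is
clear. Step: let `a0 = bits A x b i M (bd c x)`. It is in `strs (bd c x)`, `pth` holds for it, and
`Tru b (lit i M a)` with `pth ... a` holds only for `a = a0` (both lists follow the same
reading steps: neither is a proper initial segment of the other, because `act ≥ 4` before the end
and the list with `act < 4` or length `bd c x` is the last one; at the first difference both bits
are `b (act ... - 4)`). `strs` contains `a0` possibly once (no repetitions are needed: all entries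
for the same `a0` give the same value). By (1) the entries for `a ≠ a0` do not count; those for `a0`
do not count either if `okl (litm M ++ lit i M a0)` is false, and then both sides are those of
`lst n (i+1) M`. Otherwise they give `false`, `true`, or by the induction hypothesis (for
`M ++ [(i, a0)]`) `some (runK n (i+1) (M ++ [(i, a0)]))`, or nothing, as in `runK`. -/
def LseStmt : Prop := ∀ (A : Machine) (x : List Bool) (c K t : ℕ) (h : ℕ → ℕ) (b : ℕ → Bool)
  (n i : ℕ) (M : Mem), Tru b (litm A x M) → okl A x K t h (litm A x M) = true →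
    evl A x K t h b (lst A x c n i M) = some (runK A x c K t h b n i M)

/-- **LSW.** The entries of the list have at most `2 * bd c x` literals.

Proof. `(litm M).length = msize M`, `(lit i M a).length = a.length ≤ bd c x` for `a` in
`strs (bd c x)`; the memories which occur have `msize M ≤ bd c x` (induction on `n`). -/
def LswStmt : Prop := ∀ (A : Machine) (x : List Bool) (c n i : ℕ) (M : Mem), msize M ≤ bd c x →
  ∀ e ∈ lst A x c n i M, e.1.length ≤ 2 * bd c x

/-- **CVT.** From lists of literals to decision lists.

Proof. Keep the entries whose literals can all be true for some `b : Fin m → Bool` (that is, no name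
occurs with both values, and the names `≥ m` have the value `false`), and replace the list of
literals by the set of the pairs `(⟨v, _⟩, β)` with `v < m`. For such an entry
`Sat T b ↔ Tru (cf b) l`, `T.card ≤ l.length`, and the number of the literals of `T` in the part `j`
is the number of the elements of `nms l` in it (each name has one value), so `bal K t h` and `okl`
agree; the other entries are never true. -/
def CvtStmt : Prop := ∀ (A : Machine) (x : List Bool) (w : ℕ)
  (l : List (List (ℕ × Bool) × Bool)), (∀ e ∈ l, e.1.length ≤ w) →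
  ∃ f : DL (Fin (A.m x)), Wid w f ∧ ∀ (b : Fin (A.m x) → Bool) (h : ℕ → ℕ) (K t : ℕ),
    ev (f.filter (bal K t h)) b = (evl A x K t h (cf b) l).getD false

/-- **MLS.** The runs of a machine are given by a list. (May assume `LseStmt`, `LswStmt`,
`CvtStmt`.)

Proof. CVT for `lst A x c (A.T x) 0 []`; LSE with `M = []` (`litm [] = []`). -/
def MlsStmt : Prop := ∀ (A : Machine) (x : List Bool) (c : ℕ),
  Lists (A.m x) (2 * bd c x) fun K t h b => runK A x c K t h b (A.T x) 0 []

/-- **PTM.** The runs are computed in polynomial time.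

Proof. `bits` by `PolyTime.iterate_bd` or `nat_rec_bd` (at most `bd c x` bits). The run as an
iteration over the stages with the state (number of the stage, memory, result so far as
`Option Bool`); the memory has at most `T` entries, each with a number `≤ T` and at most
`bd c x` bits. `lit`, `litm`, `nms`, `okl` by `map`, `flatMap`, `filter`, `dedup`, `all`
(`Pool.Agent.Helper37.DT.PTR` has `dedup`). -/
def PtmStmt : Prop := ∀ (A : Machine) (c : ℕ),
  PolyR fun (x : List Bool) K t h b => runK A x c K t h b (A.T x) 0 []

/-- **MAP.** Approximation for the machines. (May assume `GenStmt`, `Rk0Stmt`, `MlsStmt`,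
`PtmStmt`.)

Proof. GEN with `s x = x.length + A.m x`; `2 * bd c x ≤ c1 * lg (s x)` for `c1 = 2 c`, since
`bd c x = c (log₂ |x| + 1) ≤ c * lg (s x)`. The error `1 / lg (s x) ^ e` is at most
`1 / (log₂ |x| + 2) ^ e`, but the denominators have to be changed: apply GEN with `e + 2`; then
`p' = f / lg (s x) ^ (e + 2)` satisfies `|p' - p| ≤ 1/lg (s x)^(e+2) ≤ 1/(4 l^e)`,
`l = log₂ |x| + 2`, and the result is the integer nearest to `l ^ e * p'`, that is
`(2 l^e f + lg (s x)^(e+2)) / (2 lg (s x)^(e+2))`; the total error is at most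
`(1/4 + 1/2)/l^e`. `pr_eq_card`, RK0. -/
def MapStmt : Prop := ∀ c : ℕ, Approximable c

/-- **MGA.** Languages. (May assume `MapStmt`.)

Proof. As `Pool.Agent.Helper61.DT.GAP`: `←` by the approximation with the exponent `e + 2`, `→` by
the machine without coins, with one stage, `act = 2` or `1`. -/
def MgaStmt : Prop := ∀ (c e : ℕ) (L : Set (List Bool)), InP L ↔ DecidedWithGap c e L

end Pool.Agent.Helper78.AO
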